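import Pool.Agent.Lib.MP_144d21_co.X4.H20.AllB

/-!
Let `k ≥ 4` and let `r 3, ..., r k` be `1` with at most one exception `r j`. If `r j ≤ 2` then all
members of `𝓘(r 0, ..., r k)` are chordal, for all `r 0, r 1, r 2`; if `j < k` the condition
`r j ≤ 2` is also necessary.
-/

open Finset SimpleGraph

namespace Pool.Agent.Results.MP_144d21_co.OneExponent

/-- `G` belongs to the family `𝓘(r 0, ..., r k)`: for every `q` the number of proper colourings
of `G` with `q` colours is `q ^ (r 0) * (q - 1) ^ (r 1) * ... * (q - k) ^ (r k)`. -/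
def InFamily {V : Type} (G : SimpleGraph V) (k : ℕ) (r : ℕ → ℕ) : Prop :=
  ∀ q : ℕ, ((Nat.card (G.Coloring (Fin q)) : ℕ) : ℤ) =
    ∏ i ∈ range (k + 1), ((q : ℤ) - i) ^ (r i)

/-- `G` has a chordless cycle: an induced cycle of length at least `4`. -/
def HasChordlessCycle {V : Type} (G : SimpleGraph V) : Prop :=
  ∃ n, 4 ≤ n ∧ Nonempty (cycleGraph n ↪g G)

/-- every finite member of the family `𝓘(r 0, ..., r k)` is chordal. -/
def AllChordal (k : ℕ) (r : ℕ → ℕ) : Prop :=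
  ∀ (V : Type) [Fintype V] (G : SimpleGraph V), InFamily G k r → ¬ HasChordlessCycle G

theorem result (k j : ℕ) (r : ℕ → ℕ) (hk : 4 ≤ k) (hj3 : 3 ≤ j) (hjk : j ≤ k)
    (hr : ∀ i ≤ k, 1 ≤ r i) (h1 : ∀ i, 3 ≤ i → i ≤ k → i ≠ j → r i = 1) :
    (r j ≤ 2 → AllChordal k r) ∧ (j < k → (AllChordal k r ↔ r j ≤ 2)) := by
  have key : r j ≤ 2 → AllChordal k r := fun h2 V _ G hG =>
    Pool.Agent.Xu.X4.H20.no_hole Pool.Agent.Xu.X4.H20.mainb' V G k j r hj3 h2 h1 hG
  refine ⟨key, fun hlt => ⟨fun hall => ?_, key⟩⟩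
  by_contra hc
  obtain ⟨V, hV, G, hG, hole⟩ :=
    Pool.Agent.Xu.X4.H20.exists_of_three k j hj3 hlt r hr (by omega)
  exact @hall V hV G hG hole

end Pool.Agent.Results.MP_144d21_co.OneExponent
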