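import Pool.Agent.Lib.MP_144d21_co.X2.H52.Cut2all

/-!
Xu's conjecture: every graph whose chromatic polynomial is
`x ^ r0 * (x - 1) ^ r1 * (x - 2) ^ r2 * (x - 3) ^ r3` is chordal.
-/

open Finset SimpleGraph

namespace Pool.Agent.Results.MP_144d21_co.XuConjecture

/-- `G` belongs to the family `𝓘(r 0, ..., r k)`: for every `q` the number of proper colourings
of `G` with `q` colours is `q ^ (r 0) * (q - 1) ^ (r 1) * ... * (q - k) ^ (r k)`. -/
def InFamily {V : Type} (G : SimpleGraph V) (k : ℕ) (r : ℕ → ℕ) : Prop :=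
  ∀ q : ℕ, ((Nat.card (G.Coloring (Fin q)) : ℕ) : ℤ) =
    ∏ i ∈ range (k + 1), ((q : ℤ) - i) ^ (r i)

/-- `G` has a chordless cycle: an induced cycle of length at least `4`. -/
def HasChordlessCycle {V : Type} (G : SimpleGraph V) : Prop :=
  ∃ n, 4 ≤ n ∧ Nonempty (cycleGraph n ↪g G)

theorem result (V : Type) [Fintype V] (G : SimpleGraph V) (r : ℕ → ℕ)
    (hG : InFamily G 3 r) : ¬ HasChordlessCycle G := by
  classical
  apply Pool.Agent.Xu.H51.no_cycle
  exact Pool.Agent.Xu.X2.H52.xuall V G (r 2)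
    ⟨r 0, r 1, r 2, r 3, le_rfl,
      Pool.Agent.Xu.H51.chi_of_family Pool.Agent.Xu.H51.coleq G r hG⟩

end Pool.Agent.Results.MP_144d21_co.XuConjecture
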